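import Mathlib

set_option autoImplicit false

/-!
# Entries of Pascal's triangle prime to `p`: recursion along the leading digits
-/

namespace Pool.Agent.Q270.Lam

open Finset

/-- the number of entries of row `k` which are not divisible by `p` -/
def row (p k : ℕ) : ℕ := ((range (k + 1)).filter (fun j => ¬ p ∣ k.choose j)).card

/-- the number of entries of rows `0, ..., n - 1` which are not divisible by `p` -/
def cnt (p n : ℕ) : ℕ := ∑ k ∈ range n, row p k

lemma row_eq (p k N : ℕ) (h : k + 1 ≤ N) :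
    row p k = ((range N).filter (fun j => ¬ p ∣ k.choose j)).card := by
  unfold row
  congr 1
  ext j
  simp only [mem_filter, mem_range]
  constructor
  · rintro ⟨h1, h2⟩; exact ⟨by omega, h2⟩
  · rintro ⟨_, h2⟩
    refine ⟨?_, h2⟩
    by_contra h3
    exact h2 (by rw [Nat.choose_eq_zero_of_lt (by omega)]; exact dvd_zero p)

lemma dvd_choose_small {p r s : ℕ} (hp : p.Prime) (hr : r < p) : p ∣ r.choose s ↔ r < s := by
  constructor
  · intro h
    by_contra h1
    push Not at h1
    have h2 : r.choose s ∣ r.factorial := by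
      rw [← Nat.choose_mul_factorial_mul_factorial h1, mul_assoc]
      exact dvd_mul_right _ _
    have h3 := (hp.dvd_factorial).1 (h.trans h2)
    omega
  · intro h
    rw [Nat.choose_eq_zero_of_lt h]
    exact dvd_zero p

lemma dvd_choose_iff {p k r j : ℕ} (hp : p.Prime) (hr : r < p) :
    p ∣ (p * k + r).choose j ↔ (r < j % p ∨ p ∣ k.choose (j / p)) := by
  have hpp := hp.pos
  have := Fact.mk hp
  have h := Choose.choose_modEq_choose_mod_mul_choose_div_nat (n := p * k + r) (k := j) (p := p)
  have e1 : (p * k + r) % p = r := by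
    rw [Nat.mul_add_mod, Nat.mod_eq_of_lt hr]
  have e2 : (p * k + r) / p = k := by
    rw [Nat.mul_add_div hpp, Nat.div_eq_of_lt hr, add_zero]
  rw [e1, e2] at h
  rw [Nat.ModEq.dvd_iff h dvd_rfl, hp.dvd_mul, dvd_choose_small hp hr]

lemma row_mul_add {p k r : ℕ} (hp : p.Prime) (hr : r < p) :
    row p (p * k + r) = (r + 1) * row p k := by
  have hpp := hp.pos
  rw [row_eq p (p * k + r) (p * (k + 1)) (by nlinarith)]
  unfold row
  rw [← card_range (r + 1), ← card_product]
  refine card_bij' (fun j _ => (j % p, j / p)) (fun x _ => p * x.2 + x.1) ?_ ?_ ?_ ?_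
  · intro j hj
    simp only [mem_filter, mem_range] at hj
    obtain ⟨h1, h2⟩ := hj
    rw [dvd_choose_iff hp hr] at h2
    push Not at h2
    simp only [mem_product, mem_filter, mem_range]
    refine ⟨by omega, ?_, h2.2⟩
    exact Nat.div_lt_of_lt_mul h1
  · rintro ⟨s, i⟩ hx
    simp only [mem_product, mem_filter, mem_range] at hx
    obtain ⟨h1, h2, h3⟩ := hx
    simp only [mem_filter, mem_range]
    have hs : s < p := by omega
    refine ⟨?_, ?_⟩
    · calc p * i + s < p * i + p := by omega
        _ = p * (i + 1) := by ring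
        _ ≤ p * (k + 1) := Nat.mul_le_mul_left _ (by omega)
    · rw [dvd_choose_iff hp hr]
      have e1 : (p * i + s) % p = s := by rw [Nat.mul_add_mod, Nat.mod_eq_of_lt hs]
      have e2 : (p * i + s) / p = i := by
        rw [Nat.mul_add_div hpp, Nat.div_eq_of_lt hs, add_zero]
      rw [e1, e2]
      push Not
      exact ⟨by omega, h3⟩
  · intro j _
    simp only
    exact Nat.div_add_mod j p
  · rintro ⟨s, i⟩ hx
    simp only [mem_product, mem_filter, mem_range] at hx
    have hs : s < p := by omega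
    simp only [Prod.mk.injEq]
    refine ⟨by rw [Nat.mul_add_mod, Nat.mod_eq_of_lt hs], ?_⟩
    rw [Nat.mul_add_div hpp, Nat.div_eq_of_lt hs, add_zero]

lemma row_zero {p : ℕ} (hp : p.Prime) : row p 0 = 1 := by
  unfold row
  rw [card_eq_one]
  refine ⟨0, ?_⟩
  ext j
  simp only [mem_filter, mem_range, mem_singleton]
  constructor
  · rintro ⟨h, _⟩; omega
  · rintro rfl
    exact ⟨by norm_num, by simpa using hp.one_lt.ne'⟩

lemma row_block {p : ℕ} (hp : p.Prime) {a : ℕ} (ha : a < p) : ∀ k m : ℕ, m < p ^ k →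
    row p (a * p ^ k + m) = (a + 1) * row p m := by
  intro k
  induction k with
  | zero =>
    intro m hm
    have hm0 : m = 0 := by simpa using hm
    subst hm0
    have := row_mul_add (p := p) (k := 0) (r := a) hp ha
    simpa using this
  | succ k ih =>
    intro m hm
    have hpp := hp.pos
    have e1 : a * p ^ (k + 1) + m = p * (a * p ^ k + m / p) + m % p := by
      conv_lhs => rw [← Nat.div_add_mod m p]
      ring
    have hmd : m / p < p ^ k := by
      apply Nat.div_lt_of_lt_mul
      rw [pow_succ] at hm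
      linarith [mul_comm (p ^ k) p]
    rw [e1, row_mul_add hp (Nat.mod_lt _ hpp), ih _ hmd]
    conv_rhs => rw [← Nat.div_add_mod m p, row_mul_add hp (Nat.mod_lt _ hpp)]
    ring

lemma cnt_block {p : ℕ} (hp : p.Prime) {a : ℕ} (ha : a < p) (k m : ℕ) (hm : m ≤ p ^ k) :
    cnt p (a * p ^ k + m) = cnt p (a * p ^ k) + (a + 1) * cnt p m := by
  unfold cnt
  rw [sum_range_add, mul_sum]
  congr 1
  refine sum_congr rfl fun i hi => ?_
  rw [mem_range] at hi
  exact row_block hp ha k i (by omega)

lemma cnt_mul {p : ℕ} (hp : p.Prime) (k : ℕ) : ∀ a : ℕ, a ≤ p →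
    2 * cnt p (a * p ^ k) = a * (a + 1) * cnt p (p ^ k) := by
  intro a
  induction a with
  | zero => intro _; simp [cnt]
  | succ a ih =>
    intro h
    have h1 := ih (by omega)
    have e : (a + 1) * p ^ k = a * p ^ k + p ^ k := by ring
    rw [e, cnt_block hp (by omega) k (p ^ k) le_rfl, mul_add, h1]
    ring

lemma cnt_one {p : ℕ} (hp : p.Prime) : cnt p 1 = 1 := by
  simp [cnt, row_zero hp]

/-- the weight of a level -/
noncomputable def AA (p : ℕ) : ℝ := (p : ℝ) * (p + 1) / 2

lemma cnt_pow {p : ℕ} (hp : p.Prime) (k : ℕ) : (cnt p (p ^ k) : ℝ) = AA p ^ k := by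
  induction k with
  | zero => simp [cnt_one hp]
  | succ k ih =>
    have h := cnt_mul hp k p le_rfl
    have h' : (2 : ℝ) * cnt p (p * p ^ k) = p * (p + 1) * cnt p (p ^ k) := by exact_mod_cast h
    rw [show p ^ (k + 1) = p * p ^ k by ring, pow_succ, ← ih]
    unfold AA
    linarith

lemma cnt_real {p : ℕ} (hp : p.Prime) {a : ℕ} (ha : a < p) (k m : ℕ) (hm : m ≤ p ^ k) :
    (cnt p (a * p ^ k + m) : ℝ) = (a : ℝ) * (a + 1) / 2 * AA p ^ k + (a + 1) * cnt p m := by
  rw [cnt_block hp ha k m hm]
  have h := cnt_mul hp k a ha.le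
  have h' : (2 : ℝ) * cnt p (a * p ^ k) = a * (a + 1) * cnt p (p ^ k) := by exact_mod_cast h
  rw [cnt_pow hp k] at h'
  push_cast
  linarith

end Pool.Agent.Q270.Lam
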