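import Pool.Agent.Q270.Lam.Main

set_option autoImplicit false

/-!
# The extremal sequences and the lower limits
-/

namespace Pool.Agent.Q270.Lam

open Finset Filter Topology

/-- `m 0 = 0`, `m (k + 1) = d p ^ k + m k`, so that `m k = (p ^ k - 1) / 2` for `p = 2 d + 1` -/
def ms (p d : ℕ) : ℕ → ℕ
  | 0 => 0
  | k + 1 => d * p ^ k + ms p d k

lemma ms_eq {p d : ℕ} (h : p = 2 * d + 1) (k : ℕ) : 2 * ms p d k + 1 = p ^ k := by
  induction k with
  | zero => simp [ms]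
  | succ k ih =>
    simp only [ms]
    have e : p ^ (k + 1) = (2 * d + 1) * p ^ k := by rw [pow_succ, ← h, mul_comm]
    rw [e]
    linarith

lemma ms_le {p d : ℕ} (h : p = 2 * d + 1) (k : ℕ) : ms p d k ≤ p ^ k := by
  have := ms_eq h k
  omega

lemma cnt_ms {p d : ℕ} (hp : p.Prime) (h : p = 2 * d + 1) (k : ℕ) :
    4 * (cnt p (ms p d k) : ℝ) = AA p ^ k - ((d : ℝ) + 1) ^ k := by
  induction k with
  | zero => simp [ms, cnt]
  | succ k ih =>
    simp only [ms]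
    rw [cnt_real hp (by omega) k _ (ms_le h k)]
    have hA : AA p = ((d : ℝ) + 1) * (2 * d + 1) := by
      unfold AA; rw [h]; push_cast; ring
    calc 4 * ((d : ℝ) * (d + 1) / 2 * AA p ^ k + (d + 1) * cnt p (ms p d k))
        = 2 * (d : ℝ) * (d + 1) * AA p ^ k + (d + 1) * (4 * cnt p (ms p d k)) := by ring
      _ = 2 * (d : ℝ) * (d + 1) * AA p ^ k + (d + 1) * (AA p ^ k - ((d : ℝ) + 1) ^ k) := by rw [ih]
      _ = AA p ^ k * (((d : ℝ) + 1) * (2 * d + 1)) - ((d : ℝ) + 1) ^ (k + 1) := by ring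
      _ = _ := by rw [← hA, pow_succ]; ring

lemma ms_lim {p d : ℕ} (hp : p.Prime) (h : p = 2 * d + 1) :
    Tendsto (fun k => (ms p d k : ℝ) / (p : ℝ) ^ k) atTop (𝓝 (1/2)) := by
  have hp1 : (1 : ℝ) < p := by exact_mod_cast hp.one_lt
  have e : ∀ k, (ms p d k : ℝ) / (p : ℝ) ^ k = 1/2 - 1/2 * ((1 : ℝ) / p) ^ k := by
    intro k
    have h1 : (2 : ℝ) * ms p d k + 1 = (p : ℝ) ^ k := by exact_mod_cast ms_eq h k
    have h2 : (p : ℝ) ^ k ≠ 0 := by positivity
    have h3 : (ms p d k : ℝ) = ((p : ℝ) ^ k - 1) / 2 := by linarith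
    rw [h3, div_pow, one_pow]
    field_simp
  simp_rw [e]
  have h1 : Tendsto (fun k : ℕ => ((1 : ℝ) / p) ^ k) atTop (𝓝 0) := by
    apply tendsto_pow_atTop_nhds_zero_of_lt_one (by positivity)
    rw [div_lt_one (by linarith)]; exact hp1
  have h2 := (tendsto_const_nhds (x := (1/2 : ℝ))).sub (h1.const_mul (1/2))
  rw [mul_zero, sub_zero] at h2
  exact h2

lemma cnt_ms_lim {p d : ℕ} (hp : p.Prime) (h : p = 2 * d + 1) (hd : 1 ≤ d) :
    Tendsto (fun k => (cnt p (ms p d k) : ℝ) / AA p ^ k) atTop (𝓝 (1/4)) := by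
  have hA := AA_pos hp
  have hA' : AA p = ((d : ℝ) + 1) * (2 * d + 1) := by
    unfold AA; rw [h]; push_cast; ring
  have e : ∀ k, (cnt p (ms p d k) : ℝ) / AA p ^ k = 1/4 - 1/4 * (((d : ℝ) + 1) / AA p) ^ k := by
    intro k
    have h1 := cnt_ms hp h k
    have h2 : AA p ^ k ≠ 0 := by positivity
    have h3 : (cnt p (ms p d k) : ℝ) = (AA p ^ k - ((d : ℝ) + 1) ^ k) / 4 := by linarith
    rw [h3, div_pow]
    field_simp
  simp_rw [e]
  have h1 : Tendsto (fun k : ℕ => (((d : ℝ) + 1) / AA p) ^ k) atTop (𝓝 0) := by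
    apply tendsto_pow_atTop_nhds_zero_of_lt_one (by positivity)
    rw [div_lt_one hA, hA']
    have hd' : (1 : ℝ) ≤ d := by exact_mod_cast hd
    nlinarith
  have h2 := (tendsto_const_nhds (x := (1/4 : ℝ))).sub (h1.const_mul (1/4))
  rw [mul_zero, sub_zero] at h2
  exact h2

lemma ratio_lim {p : ℕ} (hp : p.Prime) (N : ℕ → ℕ) {X P : ℝ} (hX : 0 < X)
    (hN : Tendsto (fun k => (N k : ℝ) / (p : ℝ) ^ k) atTop (𝓝 X))
    (hP : Tendsto (fun k => (cnt p (N k) : ℝ) / AA p ^ k) atTop (𝓝 P)) :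
    Tendsto (fun k => (cnt p (N k) : ℝ) * (N k : ℝ) ^ (-th p)) atTop (𝓝 (P * X ^ (-th p))) := by
  have hpp : (0 : ℝ) < p := by exact_mod_cast hp.pos
  have hA := AA_pos hp
  have e : ∀ k, (cnt p (N k) : ℝ) * (N k : ℝ) ^ (-th p) =
      (cnt p (N k) : ℝ) / AA p ^ k * ((N k : ℝ) / (p : ℝ) ^ k) ^ (-th p) := by
    intro k
    have e2 : ((p : ℝ) ^ k) ^ th p = AA p ^ k := by
      rw [← Real.rpow_natCast (p : ℝ), ← Real.rpow_mul hpp.le, mul_comm, Real.rpow_mul hpp.le,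
        p_rpow_th hp, Real.rpow_natCast]
    rw [Real.div_rpow (Nat.cast_nonneg _) (by positivity), Real.rpow_neg (by positivity : (0:ℝ) ≤ (p : ℝ) ^ k),
      e2]
    have : AA p ^ k ≠ 0 := by positivity
    field_simp
  simp_rw [e]
  exact hP.mul (hN.rpow_const (Or.inl hX.ne'))

theorem liminf_eq {p : ℕ} {sp sm Xs Ps : ℚ} (D : Data p sp sm Xs Ps) (N : ℕ → ℕ) {X P : ℝ} (hX : 0 < X)
    (hinf : Tendsto N atTop atTop)
    (hN : Tendsto (fun k => (N k : ℝ) / (p : ℝ) ^ k) atTop (𝓝 X))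
    (hP : Tendsto (fun k => (cnt p (N k) : ℝ) / AA p ^ k) atTop (𝓝 P))
    (hv : P * X ^ (-th p) = (Ps : ℝ) / (Xs : ℝ) ^ th p) :
    liminf (fun n : ℕ => (cnt p n : ℝ) * (n : ℝ) ^ (-th p)) atTop = (Ps : ℝ) / (Xs : ℝ) ^ th p := by
  have hlow : ∀ᶠ n : ℕ in atTop, (Ps : ℝ) / (Xs : ℝ) ^ th p ≤ (cnt p n : ℝ) * (n : ℝ) ^ (-th p) := by
    filter_upwards [eventually_ge_atTop 1] with n hn
    have h := D.main n hn
    have hn0 : (0 : ℝ) < n := by exact_mod_cast hn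
    rw [Real.rpow_neg hn0.le, ← div_eq_mul_inv, le_div_iff₀ (Real.rpow_pos_of_pos hn0 _)]
    exact h
  have hlim := ratio_lim D.hp N hX hN hP
  rw [hv] at hlim
  have hfreq : ∀ b : ℝ, (Ps : ℝ) / (Xs : ℝ) ^ th p < b →
      ∃ᶠ n : ℕ in atTop, (cnt p n : ℝ) * (n : ℝ) ^ (-th p) ≤ b := by
    intro b hb
    have h1 : ∀ᶠ k in atTop, (cnt p (N k) : ℝ) * (N k : ℝ) ^ (-th p) ≤ b :=
      (hlim.eventually (eventually_lt_nhds hb)).mono fun k hk => hk.le
    exact hinf.frequently h1.frequently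
  have hbdd : IsBoundedUnder (· ≥ ·) atTop (fun n : ℕ => (cnt p n : ℝ) * (n : ℝ) ^ (-th p)) :=
    ⟨_, hlow⟩
  apply le_antisymm
  · refine le_of_forall_gt_imp_ge_of_dense fun b hb => ?_
    exact liminf_le_of_frequently_le (hfreq b hb) hbdd
  · refine le_liminf_of_le ?_ hlow
    exact IsCoboundedUnder.of_frequently_le (hfreq _ (lt_add_one _))

lemma N_inf {N : ℕ → ℕ} {p : ℕ} (hp : 2 ≤ p) (h : ∀ k, p ^ k ≤ N k) : Tendsto N atTop atTop :=
  tendsto_atTop_mono h (tendsto_pow_atTop_atTop_of_one_lt (by omega))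

theorem D5 : Data 5 (27/25) (4/5) (3/2) (3/2) where
  hp := by norm_num
  T := T5
  s1 := by norm_num
  s2 := by norm_num
  s3 := by norm_num
  s4 := by norm_num
  X := by norm_num
  P := by norm_num
  C := ⟨69, 41, 37, 22, by norm_num, by norm_num, by norm_num, C5, by norm_num [AA], by norm_num [AA]⟩

theorem D7 : Data 7 (53/50) (21/25) (3/2) (3/2) where
  hp := by norm_num
  T := T7
  s1 := by norm_num
  s2 := by norm_num
  s3 := by norm_num
  s4 := by norm_num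
  X := by norm_num
  P := by norm_num
  C := ⟨12, 7, 101, 59, by norm_num, by norm_num, by norm_num, C7, by norm_num [AA], by norm_num [AA]⟩

theorem D11 : Data 11 (207/200) (89/100) (31/22) (59/44) where
  hp := by norm_num
  T := T11
  s1 := by norm_num
  s2 := by norm_num
  s3 := by norm_num
  s4 := by norm_num
  X := by norm_num
  P := by norm_num
  C := ⟨7, 4, 103, 59, by norm_num, by norm_num, by norm_num, C11, by norm_num [AA], by norm_num [AA]⟩

theorem lim_half {p d : ℕ} {sp sm : ℚ} (D : Data p sp sm (3/2) (3/2)) (h : p = 2 * d + 1) (hd : 1 ≤ d) :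
    liminf (fun n : ℕ => (cnt p n : ℝ) * (n : ℝ) ^ (-th p)) atTop = (3/2 : ℝ) ^ (1 - th p) := by
  have hp := D.hp
  have hpp : (0 : ℝ) < p := by exact_mod_cast hp.pos
  have hA := AA_pos hp
  have h1 : Tendsto (fun k => (((1 * p ^ k + ms p d k : ℕ) : ℝ)) / (p : ℝ) ^ k) atTop (𝓝 (3/2)) := by
    have e : ∀ k, (((1 * p ^ k + ms p d k : ℕ) : ℝ)) / (p : ℝ) ^ k = 1 + (ms p d k : ℝ) / (p : ℝ) ^ k := by
      intro k; push_cast; field_simp
    simp_rw [e]
    have := (ms_lim hp h).const_add 1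
    convert this using 2
    norm_num
  have h2 : Tendsto (fun k => (cnt p (1 * p ^ k + ms p d k) : ℝ) / AA p ^ k) atTop (𝓝 (3/2)) := by
    have e : ∀ k, (cnt p (1 * p ^ k + ms p d k) : ℝ) / AA p ^ k =
        1 + 2 * ((cnt p (ms p d k) : ℝ) / AA p ^ k) := by
      intro k
      rw [cnt_real hp hp.one_lt k _ (ms_le h k)]
      push_cast
      field_simp
      ring
    simp_rw [e]
    have := ((cnt_ms_lim hp h hd).const_mul 2).const_add 1
    convert this using 2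
    norm_num
  have h3 := liminf_eq D _ (by norm_num) (N_inf hp.two_le (fun k => by omega)) h1 h2 (by
    rw [Real.rpow_neg (by norm_num)]
    push_cast
    ring)
  rw [h3]
  push_cast
  rw [Real.rpow_sub (by norm_num), Real.rpow_one]

theorem lim_eleven :
    liminf (fun n : ℕ => (cnt 11 n : ℝ) * (n : ℝ) ^ (-th 11)) atTop = 59 / 44 * (22 / 31 : ℝ) ^ th 11 := by
  have D := D11
  have hp := D.hp
  have h : 11 = 2 * 5 + 1 := rfl
  have hA := AA_pos hp
  have hle : ∀ k, 4 * 11 ^ k + ms 11 5 k ≤ 11 ^ (k + 1) := by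
    intro k
    have h1 := ms_le h k
    have h2 : (11:ℕ) ^ (k + 1) = 11 * 11 ^ k := by ring
    omega
  have h1 : Tendsto (fun k => (((1 * 11 ^ (k + 1) + (4 * 11 ^ k + ms 11 5 k) : ℕ) : ℝ)) / ((11 : ℕ) : ℝ) ^ k)
      atTop (𝓝 (31/2)) := by
    have e : ∀ k, (((1 * 11 ^ (k + 1) + (4 * 11 ^ k + ms 11 5 k) : ℕ) : ℝ)) / ((11 : ℕ) : ℝ) ^ k =
        15 + (ms 11 5 k : ℝ) / ((11 : ℕ) : ℝ) ^ k := by
      intro k; push_cast; rw [pow_succ]; field_simp; ring
    simp_rw [e]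
    have := (ms_lim hp h).const_add 15
    convert this using 2
    norm_num
  have h2 : Tendsto (fun k => (cnt 11 (1 * 11 ^ (k + 1) + (4 * 11 ^ k + ms 11 5 k)) : ℝ) / AA 11 ^ k)
      atTop (𝓝 (177/2)) := by
    have e : ∀ k, (cnt 11 (1 * 11 ^ (k + 1) + (4 * 11 ^ k + ms 11 5 k)) : ℝ) / AA 11 ^ k =
        86 + 10 * ((cnt 11 (ms 11 5 k) : ℝ) / AA 11 ^ k) := by
      intro k
      rw [cnt_real hp hp.one_lt (k + 1) _ (hle k), cnt_real hp (by norm_num : 4 < 11) k _ (ms_le h k)]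
      have hAv : AA 11 = 66 := by norm_num [AA]
      rw [pow_succ, hAv]
      push_cast
      field_simp
      ring
    simp_rw [e]
    have := ((cnt_ms_lim hp h (by norm_num)).const_mul 10).const_add 86
    convert this using 2
    norm_num
  have hth : ((11 : ℕ) : ℝ) ^ th 11 = 66 := by rw [p_rpow_th hp]; norm_num [AA]
  have e31 : ((31 : ℝ) / 2) ^ th 11 = 66 * ((31 : ℝ) / 22) ^ th 11 := by
    rw [show (31 : ℝ) / 2 = ((11 : ℕ) : ℝ) * (31 / 22) by norm_num,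
      Real.mul_rpow (by norm_num) (by norm_num), hth]
  have h3 := liminf_eq D (fun k => 1 * 11 ^ (k + 1) + (4 * 11 ^ k + ms 11 5 k)) (X := 31/2) (P := 177/2)
    (by norm_num) (N_inf (by norm_num : 2 ≤ 11) (fun k => by
      show 11 ^ k ≤ 1 * 11 ^ (k + 1) + (4 * 11 ^ k + ms 11 5 k)
      omega)) h1 h2 (by
    rw [Real.rpow_neg (by norm_num), e31]
    push_cast
    have : (0:ℝ) < ((31 : ℝ) / 22) ^ th 11 := by positivity
    field_simp
    norm_num)
  rw [h3]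
  push_cast
  rw [show (22 : ℝ) / 31 = ((31 : ℝ) / 22)⁻¹ by norm_num, Real.inv_rpow (by norm_num)]
  rfl

end Pool.Agent.Q270.Lam
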