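import Pool.Agent.Q270.Lam.Basic

set_option autoImplicit false

/-!
# Lower bounds
-/

namespace Pool.Agent.Q270.Lam

open Finset

/-- corner points and slopes -/
def corners (sp sm : ℚ) : List (ℚ × ℚ) := [(0, sm), (1/2, sm), (1/2, sp), (1, sp)]

def TOK (p : ℕ) (sp sm : ℚ) : Prop := ∀ a ∈ List.range p, ∀ e ∈ corners sp sm, ∀ s ∈ [sp, sm],
  (p : ℚ) * (p + 1) / 2 * (1/4 + s * (((a : ℚ) + e.1) / p - 1/2)) ≤
    ((a : ℚ) + 1) * ((a : ℚ) / 2 + 1/4 + e.2 * (e.1 - 1/2))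

instance (p : ℕ) (sp sm : ℚ) : Decidable (TOK p sp sm) := by unfold TOK; infer_instance

/-- the four values -/
lemma TOK.get {p : ℕ} {sp sm : ℚ} (h : TOK p sp sm) {a : ℕ} (ha : a < p) {e : ℚ × ℚ}
    (he : e ∈ corners sp sm) {s : ℚ} (hs : s = sp ∨ s = sm) :
    AA p * (1/4 + (s : ℝ) * (((a : ℝ) + (e.1 : ℝ)) / p - 1/2)) ≤
    ((a : ℝ) + 1) * ((a : ℝ) / 2 + 1/4 + (e.2 : ℝ) * ((e.1 : ℝ) - 1/2)) := by
  have h1 := h a (by simpa using ha) e he s (by rcases hs with h | h <;> simp [h])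
  have h2 := (Rat.cast_le (K := ℝ)).2 h1
  push_cast at h2
  unfold AA
  exact h2

lemma q_half_le {s : ℚ} (h : 1/2 ≤ s) : (1/2 : ℝ) ≤ s := by
  have h2 := (Rat.cast_le (K := ℝ)).2 h
  push_cast at h2
  exact h2

lemma q_le_th {s : ℚ} (h : s ≤ 3/2) : (s : ℝ) ≤ 3/2 := by
  have h2 := (Rat.cast_le (K := ℝ)).2 h
  push_cast at h2
  exact h2

lemma aff {x0 x1 t : ℝ} (L R : ℝ → ℝ) (hL : ∃ α β, ∀ t, L t = α * t + β)
    (hR : ∃ α β, ∀ t, R t = α * t + β) (h0 : x0 < x1) (hx0 : L x0 ≤ R x0) (hx1 : L x1 ≤ R x1)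
    (ht0 : x0 ≤ t) (ht1 : t ≤ x1) : L t ≤ R t := by
  obtain ⟨α, β, hL⟩ := hL
  obtain ⟨γ, δ, hR⟩ := hR
  rw [hL, hR] at *
  have h3 : 0 < x1 - x0 := by linarith
  have h4 : 0 ≤ (t - x0) * ((γ * x1 + δ) - (α * x1 + β)) := mul_nonneg (by linarith) (by linarith)
  have h5 : 0 ≤ (x1 - t) * ((γ * x0 + δ) - (α * x0 + β)) := mul_nonneg (by linarith) (by linarith)
  have h6 : 0 ≤ (x1 - x0) * ((γ * t + δ) - (α * t + β)) := by nlinarith
  have h7 := nonneg_of_mul_nonneg_right h6 h3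
  linarith

/-- splitting off the leading digit -/
lemma split {p : ℕ} (hp : p.Prime) (k m : ℕ) (hm : m ≤ p ^ (k + 1)) :
    ∃ a m' : ℕ, a < p ∧ m' ≤ p ^ k ∧ m = a * p ^ k + m' := by
  have hpp := hp.pos
  have hk : 0 < p ^ k := pow_pos hpp k
  rcases Nat.lt_or_ge m (p ^ (k + 1)) with h | h
  · refine ⟨m / p ^ k, m % p ^ k, ?_, (Nat.mod_lt _ hk).le, ?_⟩
    · apply Nat.div_lt_of_lt_mul
      rw [pow_succ] at h
      exact h
    · rw [mul_comm]; exact (Nat.div_add_mod m (p ^ k)).symm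
  · have e : m = p ^ (k + 1) := le_antisymm hm h
    refine ⟨p - 1, p ^ k, by omega, le_rfl, ?_⟩
    rw [e, pow_succ]
    obtain ⟨q, rfl⟩ : ∃ q, p = q + 1 := ⟨p - 1, by omega⟩
    simp only [Nat.add_sub_cancel]
    ring

lemma AA_pos {p : ℕ} (hp : p.Prime) : 0 < AA p := by
  have : (0 : ℝ) < p := by exact_mod_cast hp.pos
  unfold AA
  positivity

theorem lower {p : ℕ} (hp : p.Prime) {sp sm : ℚ} (hT : TOK p sp sm) (h1 : 1/2 ≤ sm) (h1' : 1/2 ≤ sp)
    (h2 : sp ≤ 3/2) (h2' : sm ≤ 3/2) :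
    ∀ k m : ℕ, m ≤ p ^ k → ∀ s : ℚ, s = sp ∨ s = sm →
      AA p ^ k * (1/4 + (s : ℝ) * ((m : ℝ) / (p : ℝ) ^ k - 1/2)) ≤ cnt p m := by
  intro k
  induction k with
  | zero =>
    intro m hm s hs
    have hs1 : (1/2 : ℝ) ≤ s := by
      rcases hs with h | h <;> rw [h]
      · exact q_half_le h1'
      · exact q_half_le h1
    have hs2 : (s : ℝ) ≤ 3/2 := by
      rcases hs with h | h <;> rw [h]
      · exact q_le_th h2
      · exact q_le_th h2'
    simp only [pow_zero, Nat.le_one_iff_eq_zero_or_eq_one] at hm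
    rcases hm with rfl | rfl
    · simp [cnt]; linarith
    · rw [cnt_one hp]; norm_num; linarith
  | succ k ih =>
    intro m hm s hs
    obtain ⟨a, m', ha, hm', rfl⟩ := split hp k m hm
    have hpp : (0 : ℝ) < p := by exact_mod_cast hp.pos
    have hpk : (0 : ℝ) < (p : ℝ) ^ k := by positivity
    have hA := AA_pos hp
    rw [cnt_real hp ha k m' hm']
    set t : ℝ := (m' : ℝ) / (p : ℝ) ^ k with ht
    have ht0 : 0 ≤ t := by positivity
    have ht1 : t ≤ 1 := by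
      rw [ht, div_le_one hpk]
      exact_mod_cast hm'
    have e1 : (((a * p ^ k + m' : ℕ) : ℝ)) / (p : ℝ) ^ (k + 1) = ((a : ℝ) + t) / p := by
      rw [ht]; push_cast; rw [pow_succ]; field_simp
    rw [e1, pow_succ]
    -- the key inequality
    have key : ∀ s' : ℚ, (s' = sp ∨ s' = sm) → (AA p * (1/4 + (s : ℝ) * (((a : ℝ) + t) / p - 1/2)) ≤
        ((a : ℝ) + 1) * ((a : ℝ) / 2 + 1/4 + (s' : ℝ) * (t - 1/2))) →
        AA p ^ k * AA p * (1/4 + (s : ℝ) * (((a : ℝ) + t) / p - 1/2)) ≤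
          (a : ℝ) * (a + 1) / 2 * AA p ^ k + (a + 1) * cnt p m' := by
      intro s' hs' h
      have h3 := ih m' hm' s' hs'
      have h4 := mul_le_mul_of_nonneg_left h (pow_nonneg hA.le k)
      have h5 := mul_le_mul_of_nonneg_left h3 (by positivity : (0:ℝ) ≤ (a : ℝ) + 1)
      calc AA p ^ k * AA p * (1/4 + (s : ℝ) * (((a : ℝ) + t) / p - 1/2))
          = AA p ^ k * (AA p * (1/4 + (s : ℝ) * (((a : ℝ) + t) / p - 1/2))) := by ring
        _ ≤ _ := h4
        _ = (a : ℝ) * (a + 1) / 2 * AA p ^ k + ((a : ℝ) + 1) * (AA p ^ k * (1/4 + (s' : ℝ) * (t - 1/2))) := by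
            ring
        _ ≤ _ := by linarith
    rcases le_total t (1/2) with h | h
    · refine key sm (Or.inr rfl) ?_
      refine aff (x0 := 0) (x1 := 1/2) 
        (fun t => AA p * (1/4 + (s : ℝ) * (((a : ℝ) + t) / p - 1/2)))
        (fun t => ((a : ℝ) + 1) * ((a : ℝ) / 2 + 1/4 + (sm : ℝ) * (t - 1/2))) ?_ ?_ (by norm_num) ?_ ?_ ht0 h
      · exact ⟨AA p * s / p, AA p * (1/4 + s * (a / p - 1/2)), fun t => by field_simp; ring⟩
      · exact ⟨((a : ℝ) + 1) * sm, ((a : ℝ) + 1) * ((a : ℝ) / 2 + 1/4 - sm/2), fun t => by ring⟩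
      · have := hT.get ha (e := (0, sm)) (by simp [corners]) hs
        simpa using this
      · have := hT.get ha (e := (1/2, sm)) (by simp [corners]) hs
        push_cast at this
        exact this
    · refine key sp (Or.inl rfl) ?_
      refine aff (x0 := 1/2) (x1 := 1) 
        (fun t => AA p * (1/4 + (s : ℝ) * (((a : ℝ) + t) / p - 1/2)))
        (fun t => ((a : ℝ) + 1) * ((a : ℝ) / 2 + 1/4 + (sp : ℝ) * (t - 1/2))) ?_ ?_ (by norm_num) ?_ ?_ h ht1
      · exact ⟨AA p * s / p, AA p * (1/4 + s * (a / p - 1/2)), fun t => by field_simp; ring⟩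
      · exact ⟨((a : ℝ) + 1) * sp, ((a : ℝ) + 1) * ((a : ℝ) / 2 + 1/4 - sp/2), fun t => by ring⟩
      · have := hT.get ha (e := (1/2, sp)) (by simp [corners]) hs
        push_cast at this
        exact this
      · have := hT.get ha (e := (1, sp)) (by simp [corners]) hs
        push_cast at this
        exact this

end Pool.Agent.Q270.Lam
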