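import Pool.Agent.Q270.Lam.Num

set_option autoImplicit false

/-!
# The lower bound `λ n ^ θ ≤ cnt p n`
-/

namespace Pool.Agent.Q270.Lam

open Finset

/-- the exponent -/
noncomputable def th (p : ℕ) : ℝ := Real.log (AA p) / Real.log p

lemma pow_check {θ x q : ℝ} {u v u' v' : ℕ} (hv : 0 < v) (hv' : 0 < v')
    (hθ : θ ≤ (u : ℝ) / v) (hθ' : (u' : ℝ) / v' ≤ θ) (hx : 0 < x) (hq : 0 < q)
    (h : (1 ≤ x ∧ x ^ u ≤ q ^ v) ∨ (x ≤ 1 ∧ x ^ u' ≤ q ^ v')) : x ^ θ ≤ q := by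
  have key : ∀ a b : ℕ, 0 < b → x ^ a ≤ q ^ b → x ^ ((a : ℝ) / b) ≤ q := by
    intro a b hb hab
    have hb' : (0 : ℝ) < b := by exact_mod_cast hb
    have h1 : x ^ ((a : ℝ) / b) = (x ^ a) ^ ((1 : ℝ) / b) := by
      rw [← Real.rpow_natCast x a, ← Real.rpow_mul hx.le]
      congr 1; ring
    have h2 : (q ^ b) ^ ((1 : ℝ) / b) = q := by
      rw [← Real.rpow_natCast q b, ← Real.rpow_mul hq.le]
      rw [mul_one_div_cancel hb'.ne', Real.rpow_one]
    rw [h1]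
    calc (x ^ a) ^ ((1 : ℝ) / b) ≤ (q ^ b) ^ ((1 : ℝ) / b) :=
          Real.rpow_le_rpow (by positivity) hab (by positivity)
      _ = q := h2
  rcases h with ⟨h1, h2⟩ | ⟨h1, h2⟩
  · exact (Real.rpow_le_rpow_of_exponent_le h1 hθ).trans (key u v hv h2)
  · exact (Real.rpow_le_rpow_of_exponent_ge hx h1 hθ').trans (key u' v' hv' h2)

lemma th_le {p u v : ℕ} (hp : p.Prime) (hv : 0 < v) (h : AA p ^ v ≤ (p : ℝ) ^ u) :
    th p ≤ (u : ℝ) / v := by
  have hv' : (0 : ℝ) < v := by exact_mod_cast hv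
  have hp1 : (1 : ℝ) < p := by exact_mod_cast hp.one_lt
  have hl : 0 < Real.log p := Real.log_pos hp1
  have hA := AA_pos hp
  have h1 := Real.log_le_log (by positivity) h
  rw [Real.log_pow, Real.log_pow] at h1
  unfold th
  rw [div_le_div_iff₀ hl hv']
  linarith

lemma le_th {p u v : ℕ} (hp : p.Prime) (hv : 0 < v) (h : (p : ℝ) ^ u ≤ AA p ^ v) :
    (u : ℝ) / v ≤ th p := by
  have hv' : (0 : ℝ) < v := by exact_mod_cast hv
  have hp1 : (1 : ℝ) < p := by exact_mod_cast hp.one_lt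
  have hp0 : (0 : ℝ) < p := by linarith
  have hl : 0 < Real.log p := Real.log_pos hp1
  have h1 := Real.log_le_log (by positivity) h
  rw [Real.log_pow, Real.log_pow] at h1
  unfold th
  rw [div_le_div_iff₀ hv' hl]
  linarith

lemma p_rpow_th {p : ℕ} (hp : p.Prime) : (p : ℝ) ^ th p = AA p := by
  have hp1 : (1 : ℝ) < p := by exact_mod_cast hp.one_lt
  have hp0 : (0 : ℝ) < p := by linarith
  have hl : 0 < Real.log p := Real.log_pos hp1
  rw [Real.rpow_def_of_pos hp0]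
  unfold th
  rw [mul_div_cancel₀ _ hl.ne', Real.exp_log (AA_pos hp)]

/-- the data for one prime -/
structure Data (p : ℕ) (sp sm Xs Ps : ℚ) : Prop where
  hp : p.Prime
  T : TOK p sp sm
  s1 : 1/2 ≤ sm
  s2 : 1/2 ≤ sp
  s3 : sp ≤ 3/2
  s4 : sm ≤ 3/2
  X : 0 < Xs
  P : 0 < Ps
  C : ∃ u v u' v' : ℕ, 0 < v ∧ 0 < v' ∧ v' ≤ u' ∧ COK p sp sm Xs Ps u v u' v' ∧
    AA p ^ v ≤ (p : ℝ) ^ u ∧ (p : ℝ) ^ u' ≤ AA p ^ v'

variable {p : ℕ} {sp sm Xs Ps : ℚ}

lemma Data.one_le (D : Data p sp sm Xs Ps) : 1 ≤ th p := by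
  obtain ⟨u, v, u', v', _, hv', huv, _, _, h⟩ := D.C
  have h1 := le_th D.hp hv' h
  have hv'' : (0 : ℝ) < v' := by exact_mod_cast hv'
  have h2 : (1 : ℝ) ≤ (u' : ℝ) / v' := by
    rw [le_div_iff₀ hv'', one_mul]; exact_mod_cast huv
  linarith

/-- the lower bound at a point with leading digits `b`, `a` -/
noncomputable def LB (p b a : ℕ) (s t : ℝ) : ℝ :=
  (b : ℝ) * (b + 1) / 2 + (b + 1) * (((a : ℝ) + 1) * ((a : ℝ) / 2 + 1/4 + s * (t - 1/2))) / AA p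

lemma Data.corner (D : Data p sp sm Xs Ps) {b a : ℕ} (hb : 1 ≤ b) (hbp : b < p) (ha : a < p)
    {e : ℚ × ℚ} (he : e ∈ corners sp sm) :
    (Ps : ℝ) / (Xs : ℝ) ^ th p * ((b : ℝ) + ((a : ℝ) + (e.1 : ℝ)) / p) ^ th p ≤
      LB p b a e.2 e.1 := by
  obtain ⟨u, v, u', v', hv, hv', huv, hC, h1, h2⟩ := D.C
  have hX : (0 : ℝ) < Xs := by exact_mod_cast D.X
  have hP : (0 : ℝ) < Ps := by exact_mod_cast D.P
  have h := hC b (by simpa using hbp)
  rcases h with h | h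
  · omega
  obtain ⟨hq, hr, h3⟩ := h a (by simpa using ha) e he
  set r : ℚ := (((b : ℚ) + ((a : ℚ) + e.1) / p)) / Xs with hrd
  set q : ℚ := ((b : ℚ) * (b + 1) / 2 + (b + 1) * ((a + 1) * ((a : ℚ) / 2 + 1/4 + e.2 * (e.1 - 1/2))) /
        ((p : ℚ) * (p + 1) / 2)) / Ps with hqd
  have hr' : (0 : ℝ) < r := by exact_mod_cast hr
  have hq' : (0 : ℝ) < q := by exact_mod_cast hq
  have h4 : (r : ℝ) ^ th p ≤ q := by
    refine pow_check hv hv' (th_le D.hp hv h1) (le_th D.hp hv' h2) hr' hq' ?_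
    rcases h3 with ⟨h5, h6⟩ | ⟨h5, h6⟩
    · left; exact ⟨by exact_mod_cast h5, by exact_mod_cast h6⟩
    · right; exact ⟨by exact_mod_cast h5, by exact_mod_cast h6⟩
  have e1 : ((b : ℝ) + ((a : ℝ) + (e.1 : ℝ)) / p) = Xs * r := by
    rw [hrd]; push_cast; field_simp
  have e2 : LB p b a e.2 e.1 = Ps * q := by
    rw [hqd]; unfold LB AA; push_cast; field_simp
  rw [e1, e2, Real.mul_rpow hX.le hr'.le]
  have hXt : 0 < (Xs : ℝ) ^ th p := Real.rpow_pos_of_pos hX _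
  calc (Ps : ℝ) / (Xs : ℝ) ^ th p * ((Xs : ℝ) ^ th p * (r : ℝ) ^ th p)
      = Ps * (r : ℝ) ^ th p := by field_simp
    _ ≤ Ps * q := mul_le_mul_of_nonneg_left h4 hP.le

lemma conv_half {θ c d lam L0 L1 x0 x1 t : ℝ} (hθ : 1 ≤ θ) (hl : 0 ≤ lam) (hc : 0 ≤ c + d * x0)
    (hc1 : 0 ≤ c + d * x1) (h01 : x0 < x1) (ht0 : x0 ≤ t) (ht1 : t ≤ x1)
    (h0 : lam * (c + d * x0) ^ θ ≤ L0) (h1 : lam * (c + d * x1) ^ θ ≤ L1) :
    lam * (c + d * t) ^ θ ≤ (x1 - t) / (x1 - x0) * L0 + (t - x0) / (x1 - x0) * L1 := by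
  have h3 : 0 < x1 - x0 := by linarith
  have hw0 : 0 ≤ (x1 - t) / (x1 - x0) := div_nonneg (by linarith) h3.le
  have hw1 : 0 ≤ (t - x0) / (x1 - x0) := div_nonneg (by linarith) h3.le
  have hw : (x1 - t) / (x1 - x0) + (t - x0) / (x1 - x0) = 1 := by
    field_simp; ring
  have h4 := (convexOn_rpow hθ).2 (x := c + d * x0) (y := c + d * x1) hc hc1 hw0 hw1 hw
  simp only [smul_eq_mul] at h4
  have e : (x1 - t) / (x1 - x0) * (c + d * x0) + (t - x0) / (x1 - x0) * (c + d * x1) = c + d * t := by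
    field_simp; ring
  rw [e] at h4
  calc lam * (c + d * t) ^ θ ≤ lam * ((x1 - t) / (x1 - x0) * (c + d * x0) ^ θ +
        (t - x0) / (x1 - x0) * (c + d * x1) ^ θ) := mul_le_mul_of_nonneg_left h4 hl
    _ = (x1 - t) / (x1 - x0) * (lam * (c + d * x0) ^ θ) +
        (t - x0) / (x1 - x0) * (lam * (c + d * x1) ^ θ) := by ring
    _ ≤ _ := by
        have := mul_le_mul_of_nonneg_left h0 hw0
        have := mul_le_mul_of_nonneg_left h1 hw1
        linarith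

lemma Data.R (D : Data p sp sm Xs Ps) {b a : ℕ} (hb : 1 ≤ b) (hbp : b < p) (ha : a < p) {t : ℝ}
    (ht0 : 0 ≤ t) (ht1 : t ≤ 1) : ∃ s : ℚ, (s = sp ∨ s = sm) ∧
    (Ps : ℝ) / (Xs : ℝ) ^ th p * ((b : ℝ) + ((a : ℝ) + t) / p) ^ th p ≤ LB p b a s t := by
  have hX : (0 : ℝ) < Xs := by exact_mod_cast D.X
  have hP : (0 : ℝ) < Ps := by exact_mod_cast D.P
  have hpp : (0 : ℝ) < p := by exact_mod_cast D.hp.pos
  have hl : 0 ≤ (Ps : ℝ) / (Xs : ℝ) ^ th p := by positivity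
  have e : ∀ t : ℝ, (b : ℝ) + ((a : ℝ) + t) / p = ((b : ℝ) + (a : ℝ) / p) + 1 / p * t := by
    intro t; field_simp; ring
  have hnn : ∀ t : ℝ, 0 ≤ t → 0 ≤ ((b : ℝ) + (a : ℝ) / p) + 1 / p * t := by
    intro t ht; positivity
  have hA := AA_pos D.hp
  rcases le_total t (1/2) with h | h
  · refine ⟨sm, Or.inr rfl, ?_⟩
    have h0 := D.corner hb hbp ha (e := (0, sm)) (by simp [corners])
    have h1 := D.corner hb hbp ha (e := (1/2, sm)) (by simp [corners])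
    simp only [Rat.cast_zero, Rat.cast_div, Rat.cast_one, Rat.cast_ofNat] at h0 h1
    rw [e] at h0 h1 ⊢
    have h2 := conv_half D.one_le hl (hnn 0 le_rfl) (hnn (1/2) (by norm_num)) (by norm_num : (0:ℝ) < 1/2)
      ht0 h h0 h1
    refine h2.trans (le_of_eq ?_)
    unfold LB
    field_simp
    ring
  · refine ⟨sp, Or.inl rfl, ?_⟩
    have h0 := D.corner hb hbp ha (e := (1/2, sp)) (by simp [corners])
    have h1 := D.corner hb hbp ha (e := (1, sp)) (by simp [corners])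
    simp only [Rat.cast_div, Rat.cast_one, Rat.cast_ofNat] at h0 h1
    rw [e] at h0 h1 ⊢
    have h2 := conv_half D.one_le hl (hnn (1/2) (by norm_num)) (hnn 1 (by norm_num))
      (by norm_num : (1/2:ℝ) < 1) h ht1 h0 h1
    refine h2.trans (le_of_eq ?_)
    unfold LB
    field_simp
    ring

theorem Data.main (D : Data p sp sm Xs Ps) (n : ℕ) (hn : 1 ≤ n) :
    (Ps : ℝ) / (Xs : ℝ) ^ th p * (n : ℝ) ^ th p ≤ cnt p n := by
  have hp := D.hp
  have hpp : (0 : ℝ) < p := by exact_mod_cast hp.pos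
  have hA := AA_pos hp
  set k := Nat.log p n with hk
  have hpk : 0 < p ^ k := pow_pos hp.pos k
  have hle : p ^ k ≤ n := Nat.pow_log_le_self p (by omega)
  have hlt : n < p ^ (k + 1) := Nat.lt_pow_succ_log_self hp.one_lt n
  set b := n / p ^ k with hb
  have hb1 : 1 ≤ b := (Nat.one_le_div_iff hpk).2 hle
  have hbp : b < p := by
    apply Nat.div_lt_of_lt_mul
    rw [pow_succ] at hlt
    exact hlt
  have hn' : n = b * p ^ k + n % p ^ k := by rw [mul_comm]; exact (Nat.div_add_mod n (p ^ k)).symm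
  have hmod : n % p ^ k ≤ p ^ k := (Nat.mod_lt _ hpk).le
  clear_value b
  rcases Nat.eq_zero_or_pos k with h0 | h0
  · rw [h0] at hn'
    simp only [pow_zero, mul_one, Nat.mod_one, add_zero] at hn'
    rw [hn']
    obtain ⟨s, hs, h⟩ := D.R hb1 hbp hp.pos (le_refl (0:ℝ)) (by norm_num)
    simp only [CharP.cast_eq_zero, add_zero, zero_div] at h
    refine h.trans ?_
    have h1 := cnt_real hp hbp 0 0 (by simp)
    simp only [pow_zero, mul_one, add_zero] at h1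
    rw [h1]
    have hs1 : (1/2 : ℝ) ≤ s := by
      rcases hs with h | h <;> rw [h]
      · exact q_half_le D.s2
      · exact q_half_le D.s1
    unfold LB
    have h2 : (((b : ℝ) + 1) * ((((0 : ℕ) : ℝ) + 1) * (((0 : ℕ) : ℝ) / 2 + 1/4 + s * (0 - 1/2)))) / AA p ≤ 0 := by
      apply div_nonpos_of_nonpos_of_nonneg _ hA.le
      apply mul_nonpos_of_nonneg_of_nonpos (by positivity)
      simp only [CharP.cast_eq_zero, zero_add, zero_div, one_mul]
      linarith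
    simp only [cnt, range_zero, sum_empty, CharP.cast_eq_zero, mul_zero, add_zero] at h2 ⊢
    linarith
  · obtain ⟨k', hk'⟩ : ∃ k', k = k' + 1 := ⟨k - 1, by omega⟩
    rw [hk'] at hn' hmod
    obtain ⟨a, m', ha, hm', hsp⟩ := split hp k' _ hmod
    have hpk' : (0 : ℝ) < (p : ℝ) ^ k' := by positivity
    set t : ℝ := (m' : ℝ) / (p : ℝ) ^ k' with ht
    have ht0 : 0 ≤ t := by positivity
    have ht1 : t ≤ 1 := by
      rw [ht, div_le_one hpk']; exact_mod_cast hm'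
    obtain ⟨s, hs, h⟩ := D.R hb1 hbp ha ht0 ht1
    have e1 : (n : ℝ) = (p : ℝ) ^ (k' + 1) * ((b : ℝ) + ((a : ℝ) + t) / p) := by
      rw [hn', hsp, ht, pow_succ, pow_succ]
      push_cast
      field_simp
    have hX0 : 0 ≤ (b : ℝ) + ((a : ℝ) + t) / p := by positivity
    have e2 : ((p : ℝ) ^ (k' + 1)) ^ th p = AA p ^ (k' + 1) := by
      rw [← Real.rpow_natCast (p : ℝ), ← Real.rpow_mul hpp.le, mul_comm, Real.rpow_mul hpp.le,
        p_rpow_th hp, Real.rpow_natCast]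
    have hlow := lower hp D.T D.s1 D.s2 D.s3 D.s4 k' m' hm' s hs
    rw [← ht] at hlow
    have hcm : (cnt p (n % p ^ (k' + 1)) : ℝ) = (a : ℝ) * (a + 1) / 2 * AA p ^ k' + (a + 1) * cnt p m' := by
      rw [hsp]; exact cnt_real hp ha k' m' hm'
    have hcn : (cnt p n : ℝ) = (b : ℝ) * (b + 1) / 2 * AA p ^ (k' + 1) + (b + 1) * cnt p (n % p ^ (k' + 1)) := by
      conv_lhs => rw [hn']
      exact cnt_real hp hbp (k' + 1) _ hmod
    rw [hcn, hcm, e1, Real.mul_rpow (by positivity) hX0, e2]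
    calc (Ps : ℝ) / (Xs : ℝ) ^ th p * (AA p ^ (k' + 1) * ((b : ℝ) + ((a : ℝ) + t) / p) ^ th p)
        = AA p ^ (k' + 1) * ((Ps : ℝ) / (Xs : ℝ) ^ th p * ((b : ℝ) + ((a : ℝ) + t) / p) ^ th p) := by ring
      _ ≤ AA p ^ (k' + 1) * LB p b a s t := mul_le_mul_of_nonneg_left h (by positivity)
      _ = (b : ℝ) * (b + 1) / 2 * AA p ^ (k' + 1) + (b + 1) * ((a : ℝ) * (a + 1) / 2 * AA p ^ k' +
          (a + 1) * (AA p ^ k' * (1/4 + s * (t - 1/2)))) := by
          unfold LB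
          rw [pow_succ]
          field_simp
          ring
      _ ≤ _ := by gcongr

end Pool.Agent.Q270.Lam
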