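import Pool.Agent.Q270.Lam.Low

set_option autoImplicit false

/-!
# Numerical checks
-/

namespace Pool.Agent.Q270.Lam

/-- one comparison `r ^ θ ≤ q`, where `u / v` is above `θ` and `u' / v'` below -/
def One (r q : ℚ) (u v u' v' : ℕ) : Prop := 0 < q ∧ 0 < r ∧ ((1 ≤ r ∧ r ^ u ≤ q ^ v) ∨ (r ≤ 1 ∧ r ^ u' ≤ q ^ v'))

instance (r q : ℚ) (u v u' v' : ℕ) : Decidable (One r q u v u' v') := by unfold One; infer_instance

def COK (p : ℕ) (sp sm Xs Ps : ℚ) (u v u' v' : ℕ) : Prop :=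
  ∀ b ∈ List.range p, b = 0 ∨ ∀ a ∈ List.range p, ∀ e ∈ corners sp sm,
    One ((((b : ℚ) + ((a : ℚ) + e.1) / p)) / Xs)
      (((b : ℚ) * (b + 1) / 2 + (b + 1) * ((a + 1) * ((a : ℚ) / 2 + 1/4 + e.2 * (e.1 - 1/2))) /
        ((p : ℚ) * (p + 1) / 2)) / Ps) u v u' v'

instance (p : ℕ) (sp sm Xs Ps : ℚ) (u v u' v' : ℕ) : Decidable (COK p sp sm Xs Ps u v u' v') := by
  unfold COK; infer_instance

lemma T5 : TOK 5 (27/25) (4/5) := by decide +kernel
lemma T7 : TOK 7 (53/50) (21/25) := by decide +kernel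
lemma T11 : TOK 11 (207/200) (89/100) := by decide +kernel

lemma C5 : COK 5 (27/25) (4/5) (3/2) (3/2) 69 41 37 22 := by decide +kernel
lemma C7 : COK 7 (53/50) (21/25) (3/2) (3/2) 12 7 101 59 := by decide +kernel
lemma C11 : COK 11 (207/200) (89/100) (31/22) (59/44) 7 4 103 59 := by decide +kernel

end Pool.Agent.Q270.Lam
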